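import Mathlib
import Pool.Agent.Lib_helper74.CG.Game

set_option autoImplicit false
set_option linter.unusedSectionVars false

/-!
# Gluing three copies of a graph at a vertex

Let `G` have an odd number of vertices and a vertex `r` such that, once `r` is coloured (Bob to
move), Alice wins with `k` colours and Bob wins with `k + 1` colours.  Then the graph obtained from
three copies of `G` by identifying the three copies of `r` is won by Alice with `k` colours and by
Bob with `k + 1` colours.
-/

namespace Pool.Agent.Lib_helper21.Zhu

open Finset Pool.Agent.Lib_helper74.CG

variable {V : Type} [Fintype V] [DecidableEq V]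

/-- vertices of the glued graph: `none` is the common vertex -/
abbrev GV (r : V) : Type := Option (Fin 3 × {v : V // v ≠ r})

/-- three copies of `G` glued at `r` -/
def glue (G : SimpleGraph V) (r : V) : SimpleGraph (GV r) where
  Adj x y := match x, y with
    | none, none => False
    | none, some (_, b) => G.Adj r b
    | some (_, a), none => G.Adj r a
    | some (i, a), some (j, b) => i = j ∧ G.Adj a b
  symm := ⟨by
    rintro (_ | ⟨i, a⟩) (_ | ⟨j, b⟩) h
    · exact h
    · exact h
    · exact h
    · exact ⟨h.1.symm, h.2.symm⟩⟩
  loopless := ⟨by
    rintro (_ | ⟨i, a⟩) h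
    · exact h
    · exact h.2.ne rfl⟩

variable {r : V}

/-- the restriction of a position to a copy -/
def restr (f : GV r → Option ℕ) (i : Fin 3) : V → Option ℕ :=
  fun v => if h : v = r then f none else f (some (i, ⟨v, h⟩))

theorem restr_r (f : GV r → Option ℕ) (i : Fin 3) : restr f i r = f none := by
  simp [restr]

theorem restr_ne (f : GV r → Option ℕ) (i : Fin 3) (x : {v : V // v ≠ r}) :
    restr f i x = f (some (i, x)) := by
  simp [restr, x.2]

theorem restr_update_same (f : GV r → Option ℕ) (i : Fin 3) (x : {v : V // v ≠ r})
    (c : Option ℕ) :
    restr (Function.update f (some (i, x)) c) i = Function.update (restr f i) x c := by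
  funext v
  by_cases hv : v = r
  · subst hv
    rw [restr_r, Function.update_of_ne (by simp), Function.update_of_ne (fun h => x.2 h.symm),
      restr_r]
  · have e1 := restr_ne (Function.update f (some (i, x)) c) i ⟨v, hv⟩
    have e2 := restr_ne f i ⟨v, hv⟩
    simp only at e1 e2
    rw [e1]
    by_cases hx : v = x
    · have : (⟨v, hv⟩ : {v : V // v ≠ r}) = x := Subtype.ext hx
      rw [this, Function.update_self, hx, Function.update_self]
    · rw [Function.update_of_ne hx, e2, Function.update_of_ne]
      intro h
      apply hx
      simp only [Option.some.injEq, Prod.mk.injEq, true_and] at h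
      rw [← h]

theorem restr_update_other (f : GV r → Option ℕ) {i j : Fin 3} (hij : j ≠ i)
    (x : {v : V // v ≠ r}) (c : Option ℕ) :
    restr (Function.update f (some (i, x)) c) j = restr f j := by
  funext v
  by_cases hv : v = r
  · subst hv
    rw [restr_r, Function.update_of_ne (by simp), restr_r]
  · have e1 := restr_ne (Function.update f (some (i, x)) c) j ⟨v, hv⟩
    have e2 := restr_ne f j ⟨v, hv⟩
    simp only at e1 e2
    rw [e1, e2, Function.update_of_ne]
    intro h
    simp only [Option.some.injEq, Prod.mk.injEq] at h
    exact hij h.1

theorem legal_iff {G : SimpleGraph V} {k : ℕ} (f : GV r → Option ℕ) (i : Fin 3)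
    (x : {v : V // v ≠ r}) (c : ℕ) :
    Legal (glue G r) k f (some (i, x)) c ↔ Legal G k (restr f i) x c := by
  unfold Legal
  rw [restr_ne]
  constructor
  · rintro ⟨h1, h2, h3⟩
    refine ⟨h1, h2, ?_⟩
    intro w hw
    by_cases hwr : w = r
    · subst hwr
      rw [restr_r]
      exact h3 none hw.symm
    · have e2 := restr_ne f i ⟨w, hwr⟩
      simp only at e2
      rw [e2]
      exact h3 (some (i, ⟨w, hwr⟩)) ⟨rfl, hw⟩
  · rintro ⟨h1, h2, h3⟩
    refine ⟨h1, h2, ?_⟩
    rintro (_ | ⟨j, b⟩) hw
    · have hw' : G.Adj r x := hw
      have := h3 r hw'.symm
      rwa [restr_r] at this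
    · obtain ⟨hij, hab⟩ := hw
      subst hij
      have := h3 b hab
      rwa [restr_ne] at this

/-- the number of coloured vertices in a copy, without the common vertex -/
def cnt (f : GV r → Option ℕ) (i : Fin 3) : ℕ :=
  ∑ x : {v : V // v ≠ r}, if f (some (i, x)) ≠ none then 1 else 0

theorem ncol_eq (f : GV r → Option ℕ) :
    ncol f = (if f none ≠ none then 1 else 0) + (cnt f 0 + cnt f 1 + cnt f 2) := by
  unfold ncol cnt
  rw [Finset.card_filter, Fintype.sum_option, Fintype.sum_prod_type, Fin.sum_univ_three]

theorem ncol_restr (f : GV r → Option ℕ) (i : Fin 3) :
    ncol (restr f i) = (if f none ≠ none then 1 else 0) + cnt f i := by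
  unfold ncol cnt
  rw [Finset.card_filter]
  rw [← (Equiv.optionSubtypeNe r).sum_comp, Fintype.sum_option]
  simp only [Equiv.optionSubtypeNe_none, Equiv.optionSubtypeNe_some, restr_r, restr_ne]

theorem cnt_le (f : GV r → Option ℕ) (i : Fin 3) :
    cnt f i ≤ Fintype.card V - 1 := by
  have h := ncol_restr f i
  unfold cnt
  calc _ ≤ ∑ x : {v : V // v ≠ r}, 1 := Finset.sum_le_sum (fun x _ => by split_ifs <;> omega)
    _ = Fintype.card {v : V // v ≠ r} := by simp
    _ = Fintype.card V - 1 := by
      rw [Fintype.card_subtype_compl, Fintype.card_subtype_eq]

theorem cnt_full (f : GV r → Option ℕ) (i : Fin 3) (h : ∀ x, f (some (i, x)) ≠ none) :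
    cnt f i = Fintype.card V - 1 := by
  unfold cnt
  calc _ = ∑ x : {v : V // v ≠ r}, 1 := Finset.sum_congr rfl (fun x _ => by simp [h x])
    _ = Fintype.card {v : V // v ≠ r} := by simp
    _ = Fintype.card V - 1 := by
      rw [Fintype.card_subtype_compl, Fintype.card_subtype_eq]

/-- a dead vertex of a copy is dead -/
theorem dead_lift {G : SimpleGraph V} {k : ℕ} (f : GV r → Option ℕ) (i : Fin 3)
    (x : {v : V // v ≠ r}) (h1 : f (some (i, x)) = none)
    (h2 : ¬ ∃ c, Legal (glue G r) k f (some (i, x)) c) : Dead (glue G r) k f (some (i, x)) := by
  refine ⟨h1, ?_⟩
  intro c hc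
  by_contra hcon
  push Not at hcon
  exact h2 ⟨c, h1, hc, hcon⟩

/-! ### Alice wins with `k` colours -/

section alice

variable {G : SimpleGraph V} {k : ℕ}

/-- the positions that Alice keeps (Bob to move) -/
def SA (G : SimpleGraph V) (k : ℕ) (f : GV r → Option ℕ) : Prop :=
  f none ≠ none ∧ ∀ i, Odd (ncol (restr f i)) ∧ AWin G k (restr f i)

theorem awin_SA (hodd : Odd (Fintype.card V)) {f : GV r → Option ℕ} (hf : SA G k f) :
    AWin (glue G r) k f := by
  induction hm : Fintype.card (GV r) - ncol f using Nat.strong_induction_on generalizing f with
  | _ m ih =>
    obtain ⟨h0, hS⟩ := hf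
    have hne : ¬ Even (ncol f) := by
      have e0 := (hS 0).1
      have e1 := (hS 1).1
      have e2 := (hS 2).1
      rw [ncol_restr, if_pos h0] at e0 e1 e2
      rw [ncol_eq, if_pos h0, Nat.not_even_iff_odd]
      rw [Nat.odd_iff] at *
      omega
    refine awin_of_all hne ?_ ?_
    · rintro ⟨v, hv⟩
      rcases v with _ | ⟨i, x⟩
      · exact absurd hv h0
      · have hc := (hS i).2.cond.1
        by_contra hcon
        push Not at hcon
        refine hc ?_ x (by rw [restr_ne]; exact hv)
        rintro ⟨w, c, hw1, hw2, hw3⟩
        by_cases hwr : w = r
        · subst hwr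
          rw [restr_r] at hw1
          exact h0 hw1
        · exact hcon (some (i, ⟨w, hwr⟩)) c ((legal_iff f i ⟨w, hwr⟩ c).mpr ⟨hw1, hw2, hw3⟩)
    · rintro (_ | ⟨i, x⟩) c hl
      · exact absurd hl.1 h0
      · have hl' := (legal_iff f i x c).mp hl
        have hne' : ¬ Even (ncol (restr f i)) := Nat.not_even_iff_odd.mpr (hS i).1
        have hA : AWin G k (Function.update (restr f i) x (some c)) :=
          (hS i).2.cond.2.2 hne' x c hl'.1 hl'.2.1 hl'.2.2
        have hn1 : ncol (Function.update (restr f i) x (some c)) = ncol (restr f i) + 1 :=
          ncol_update hl'.1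
        have hev : Even (ncol (Function.update (restr f i) x (some c))) := by
          rw [hn1]; exact (hS i).1.add_one
        -- not everything is coloured
        have hex : ∃ v, Function.update (restr f i) (x : V) (some c) v = none := by
          by_contra hcon
          push Not at hcon
          have : ncol (Function.update (restr f i) (x : V) (some c)) = Fintype.card V := by
            unfold ncol
            rw [Finset.filter_true_of_mem (fun v _ => hcon v)]
            rfl
          rw [this] at hev
          exact Nat.not_even_iff_odd.mpr hodd hev
        have hex2 : ∃ v d, Function.update (restr f i) (x : V) (some c) v = none ∧ d < k ∧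
            ∀ w, G.Adj v w → Function.update (restr f i) (x : V) (some c) w ≠ some d := by
          by_contra hcon
          obtain ⟨v, hv⟩ := hex
          exact hA.cond.1 hcon v hv
        obtain ⟨y, d, hy1, hy2, hy3, hy4⟩ := hA.cond.2.1 hev hex2
        have hyr : y ≠ r := by
          rintro rfl
          rw [Function.update_of_ne (fun h => x.2 h.symm), restr_r] at hy1
          exact h0 hy1
        set g := Function.update f (some (i, x)) (some c) with hg
        have hgr : restr g i = Function.update (restr f i) x (some c) :=
          restr_update_same f i x (some c)
        have hnf : f (some (i, x)) = none := hl.1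
        have hng : ncol g = ncol f + 1 := ncol_update hl.1
        have hly : Legal (glue G r) k g (some (i, ⟨y, hyr⟩)) d := by
          rw [legal_iff, hgr]
          exact ⟨hy1, hy2, hy3⟩
        have hge : Even (ncol g) := by
          rw [hng]; exact (Nat.not_even_iff_odd.mp hne).add_one
        refine awin_of_move hge hly ?_
        have hng2 : ncol (Function.update g (some (i, ⟨y, hyr⟩)) (some d)) = ncol g + 1 :=
          ncol_update hly.1
        have hlt : ncol f < Fintype.card (GV r) := ncol_lt hl.1
        refine ih _ ?_ ?_ rfl
        · omega
        · refine ⟨?_, ?_⟩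
          · rw [Function.update_of_ne (by simp), hg, Function.update_of_ne (by simp)]
            exact h0
          · intro j
            by_cases hji : j = i
            · subst hji
              rw [restr_update_same, hgr]
              refine ⟨?_, hy4⟩
              have : ncol (Function.update (Function.update (restr f j) x (some c)) y (some d))
                  = ncol (Function.update (restr f j) x (some c)) + 1 := ncol_update hy1
              rw [this]
              exact hev.add_one
            · rw [restr_update_other _ hji, hg, restr_update_other _ hji]
              exact hS j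

end alice

/-! ### Bob wins with `k` colours -/

section bob

variable {G : SimpleGraph V} {k : ℕ}

/-- `true`: Bob to move; `false`: Alice to move -/
theorem not_awin_TU (hodd : Odd (Fintype.card V)) (i : Fin 3) {f : GV r → Option ℕ}
    (h0 : f none ≠ none) (hB : ¬ AWin G k (restr f i))
    (hpar : Even (ncol f) ↔ Even (ncol (restr f i))) : ¬ AWin (glue G r) k f := by
  induction hm : Fintype.card (GV r) - ncol f using Nat.strong_induction_on generalizing f with
  | _ m ih =>
    by_cases hev : Even (ncol f)
    · -- Alice to move
      have hevi := hpar.mp hev
      have hex : ∃ v, restr f i v = none := by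
        by_contra hcon
        push Not at hcon
        have : ncol (restr f i) = Fintype.card V := by
          unfold ncol
          rw [Finset.filter_true_of_mem (fun v _ => hcon v)]
          rfl
        rw [this] at hevi
        exact Nat.not_even_iff_odd.mpr hodd hevi
      have hex' : ∃ v, f v = none := by
        obtain ⟨v, hv⟩ := hex
        by_cases hvr : v = r
        · subst hvr
          rw [restr_r] at hv
          exact ⟨none, hv⟩
        · have e := restr_ne f i ⟨v, hvr⟩
          exact ⟨some (i, ⟨v, hvr⟩), by rw [← e]; exact hv⟩
      refine not_awin_of_all hev hex' ?_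
      rintro (_ | ⟨j, x⟩) c hl
      · exact absurd hl.1 h0
      · have hlt : ncol f < Fintype.card (GV r) := ncol_lt hl.1
        have hn1 : ncol (Function.update f (some (j, x)) (some c)) = ncol f + 1 :=
          ncol_update hl.1
        have h0' : Function.update f (some (j, x)) (some c) none ≠ none := by
          rw [Function.update_of_ne (by simp)]
          exact h0
        by_cases hji : j = i
        · subst hji
          have hl' := (legal_iff f j x c).mp hl
          refine ih _ ?_ h0' ?_ ?_ rfl
          · omega
          · rw [restr_update_same]
            intro hA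
            exact hB (awin_of_move hevi hl' hA)
          · rw [restr_update_same, hn1, ncol_update hl'.1, Nat.even_add_one, Nat.even_add_one, hpar]
        · -- Alice moves outside: Bob answers outside
          set g := Function.update f (some (j, x)) (some c) with hg
          have hgi : restr g i = restr f i := restr_update_other f (Ne.symm hji) x (some c)
          have hgo : ¬ Even (ncol g) := by
            rw [hn1, Nat.even_add_one]
            simpa using hev
          -- an uncoloured vertex outside
          have hexo : ∃ l y, l ≠ i ∧ g (some (l, y)) = none := by
            by_contra hcon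
            push Not at hcon
            have hfull : ∀ l, l ≠ i → cnt g l = Fintype.card V - 1 :=
              fun l hl => cnt_full g l (fun y => hcon l y hl)
            have e1 := ncol_eq g
            have e2 := ncol_restr g i
            rw [if_pos h0'] at e1 e2
            rw [hgi] at e2
            rw [Nat.odd_iff] at hodd
            rw [Nat.not_even_iff_odd, Nat.odd_iff] at hgo
            rw [Nat.even_iff] at hevi
            have hi : i = 0 ∨ i = 1 ∨ i = 2 := by fin_cases i <;> simp
            rcases hi with rfl | rfl | rfl
            · have := hfull 1 (by decide)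
              have := hfull 2 (by decide)
              omega
            · have := hfull 0 (by decide)
              have := hfull 2 (by decide)
              omega
            · have := hfull 0 (by decide)
              have := hfull 1 (by decide)
              omega
          obtain ⟨l, y, hli, hy⟩ := hexo
          by_cases hleg : ∃ d, Legal (glue G r) k g (some (l, y)) d
          · obtain ⟨d, hd⟩ := hleg
            refine not_awin_of_move hgo hd ?_
            have hn2 : ncol (Function.update g (some (l, y)) (some d)) = ncol g + 1 :=
              ncol_update hd.1
            have hgi2 : restr (Function.update g (some (l, y)) (some d)) i = restr f i := by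
              rw [restr_update_other _ (Ne.symm hli), hgi]
            refine ih _ ?_ ?_ ?_ ?_ rfl
            · omega
            · rw [Function.update_of_ne (by simp)]
              exact h0'
            · rw [hgi2]; exact hB
            · rw [hgi2, hn2, hn1, Nat.even_add_one, Nat.even_add_one, not_not, hpar]
          · exact not_awin_dead (dead_lift g l y hy hleg)
    · -- Bob to move
      have hoddi : ¬ Even (ncol (restr f i)) := fun h => hev (hpar.mpr h)
      by_cases hdead : ∃ v, restr f i v = none ∧ ¬ ∃ c, Legal G k (restr f i) v c
      · obtain ⟨v, hv, hnl⟩ := hdead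
        have hvr : v ≠ r := by
          rintro rfl
          rw [restr_r] at hv
          exact h0 hv
        have e := restr_ne f i ⟨v, hvr⟩
        simp only at e
        refine not_awin_dead (dead_lift f i ⟨v, hvr⟩ (by rw [← e]; exact hv) ?_)
        rintro ⟨c, hc⟩
        exact hnl ⟨c, (legal_iff f i ⟨v, hvr⟩ c).mp hc⟩
      · push Not at hdead
        have hmv : ∃ v c, Legal G k (restr f i) v c ∧
            ¬ AWin G k (Function.update (restr f i) v (some c)) := by
          by_contra hcon
          push Not at hcon
          refine hB (awin_of_all hoddi ?_ hcon)
          rintro ⟨v, hv⟩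
          obtain ⟨c, hc⟩ := hdead v hv
          exact ⟨v, c, hc⟩
        obtain ⟨v, c, hl, hA⟩ := hmv
        have hvr : v ≠ r := by
          rintro rfl
          have := hl.1
          rw [restr_r] at this
          exact h0 this
        have hl' : Legal (glue G r) k f (some (i, ⟨v, hvr⟩)) c :=
          (legal_iff f i ⟨v, hvr⟩ c).mpr hl
        refine not_awin_of_move hev hl' ?_
        have hlt : ncol f < Fintype.card (GV r) := ncol_lt hl'.1
        have hn1 : ncol (Function.update f (some (i, ⟨v, hvr⟩)) (some c)) = ncol f + 1 :=
          ncol_update hl'.1
        refine ih _ ?_ ?_ ?_ ?_ rfl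
        · omega
        · rw [Function.update_of_ne (by simp)]
          exact h0
        · rw [restr_update_same]
          exact hA
        · rw [restr_update_same, hn1]
          have : ncol (Function.update (restr f i) v (some c)) = ncol (restr f i) + 1 :=
            ncol_update hl.1
          rw [this, Nat.even_add_one, Nat.even_add_one, hpar]

end bob

/-- the position in which only `r` is coloured -/
def single (r : V) (c : ℕ) : V → Option ℕ := Function.update (fun _ => none) r (some c)

theorem ncol_none : ncol (fun _ => none : V → Option ℕ) = 0 := by
  simp [ncol]

theorem ncol_single (r : V) (c : ℕ) : ncol (single r c) = 1 := by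
  unfold single
  rw [ncol_update rfl, ncol_none]

theorem restr_none (f : GV r → Option ℕ) (i : Fin 3) (c : ℕ) (h1 : f none = some c)
    (h2 : ∀ x, f (some (i, x)) = none) : restr f i = single r c := by
  funext v
  by_cases hv : v = r
  · subst hv
    rw [restr_r, h1]
    simp [single]
  · have e := restr_ne f i ⟨v, hv⟩
    simp only at e
    rw [e, h2]
    simp [single, Function.update_of_ne hv]

/-- **Gluing lemma.** -/
theorem glue3 (G : SimpleGraph V) (r : V) (k : ℕ) (hk : 0 < k) (hodd : Odd (Fintype.card V))
    (hA : AWin G k (single r 0)) (hB : ∀ c, c < k + 1 → ¬ AWin G (k + 1) (single r c)) :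
    AWin (glue G r) k (fun _ => none) ∧ ¬ AWin (glue G r) (k + 1) (fun _ => none) := by
  constructor
  · have hl : Legal (glue G r) k (fun _ => none) none 0 := ⟨rfl, hk, by simp⟩
    refine awin_of_move (by rw [ncol_none]; exact Even.zero) hl (awin_SA hodd ⟨?_, ?_⟩)
    · simp
    · intro i
      have : restr (Function.update (fun _ => none) none (some 0)) i = single r 0 :=
        restr_none _ i 0 (by simp) (by intro x; simp)
      rw [this, ncol_single]
      exact ⟨odd_one, hA⟩
  · refine not_awin_of_all (by rw [ncol_none]; exact Even.zero) ⟨none, rfl⟩ ?_
    rintro (_ | ⟨i, x⟩) c hl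
    · -- Alice starts with the common vertex
      have e : restr (Function.update (fun _ => none) none (some c)) 0 = single r c :=
        restr_none _ 0 c (by simp) (by intro x; simp)
      refine not_awin_TU hodd 0 (by simp) ?_ ?_
      · rw [e]; exact hB c hl.2.1
      · rw [e, ncol_single, ncol_update rfl, ncol_none]
    · -- Alice starts elsewhere
      set f1 : GV r → Option ℕ := Function.update (fun _ => none) (some (i, x)) (some c) with hf1
      have hn1 : ncol f1 = 1 := by rw [hf1, ncol_update rfl, ncol_none]
      obtain ⟨d, hd, hdc⟩ : ∃ d, d < k + 1 ∧ d ≠ c := by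
        by_cases h : c = 0
        · exact ⟨1, by omega, by omega⟩
        · exact ⟨0, by omega, by omega⟩
      have hl2 : Legal (glue G r) (k + 1) f1 none d := by
        refine ⟨by rw [hf1, Function.update_of_ne (by simp)], hd, ?_⟩
        intro w _
        rw [hf1]
        by_cases hw : w = some (i, x)
        · subst hw
          rw [Function.update_self]
          intro h
          exact hdc (Option.some.inj h).symm
        · rw [Function.update_of_ne hw]
          simp
      refine not_awin_of_move (by rw [hn1]; decide) hl2 ?_
      set f2 := Function.update f1 none (some d) with hf2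
      have hn2 : ncol f2 = 2 := by rw [hf2, ncol_update hl2.1, hn1]
      have hex : ∃ v, f2 v = none := by
        obtain ⟨j, hj⟩ : ∃ j : Fin 3, j ≠ i := ⟨i + 1, by fin_cases i <;> decide⟩
        refine ⟨some (j, x), ?_⟩
        rw [hf2, Function.update_of_ne (by simp), hf1, Function.update_of_ne]
        intro h
        simp only [Option.some.injEq, Prod.mk.injEq, and_true] at h
        exact hj h
      refine not_awin_of_all (by rw [hn2]; decide) hex ?_
      rintro (_ | ⟨j, y⟩) e hl3
      · exact absurd hl3.1 (by rw [hf2, Function.update_self]; simp)
      · set f3 := Function.update f2 (some (j, y)) (some e) with hf3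
        have hn3 : ncol f3 = 3 := by rw [hf3, ncol_update hl3.1, hn2]
        obtain ⟨l, hli, hlj⟩ : ∃ l : Fin 3, l ≠ i ∧ l ≠ j := by
          fin_cases i <;> fin_cases j <;> decide
        have e3 : restr f3 l = single r d := by
          refine restr_none _ l d ?_ ?_
          · rw [hf3, Function.update_of_ne (by simp), hf2, Function.update_self]
          · intro z
            rw [hf3, Function.update_of_ne, hf2, Function.update_of_ne (by simp), hf1,
              Function.update_of_ne]
            · intro h
              simp only [Option.some.injEq, Prod.mk.injEq] at h
              exact hli h.1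
            · intro h
              simp only [Option.some.injEq, Prod.mk.injEq] at h
              exact hlj h.1
        refine not_awin_TU hodd l ?_ ?_ ?_
        · rw [hf3, Function.update_of_ne (by simp), hf2, Function.update_self]
          simp
        · rw [e3]; exact hB d hd
        · rw [e3, ncol_single, hn3]
          decide

end Pool.Agent.Lib_helper21.Zhu
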