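import Mathlib
import Pool.Agent.Lib_helper74.CG.Game
import Pool.Agent.Lib_helper74.CG.Crown
import Pool.Agent.Lib_helper21.Zhu.Glue3

set_option autoImplicit false

/-!
# From the two certificates to the negation of monotonicity
-/

namespace Pool.Agent.Lib_helper21.Zhu

open Finset Pool.Agent.Lib_helper74.CG Pool.Agent.Lib_helper74.CG.Crown

theorem single_eq {V : Type} [DecidableEq V] (r : V) (c : ℕ) :
    single r c = fun v => if v = r then some c else none := by
  funext v
  unfold single
  by_cases hv : v = r
  · subst hv; simp
  · rw [Function.update_of_ne hv, if_neg hv]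

/-- colour symmetry: the colour of `r` does not matter -/
theorem awin_single_zero {V : Type} [Fintype V] [DecidableEq V] {G : SimpleGraph V} {k : ℕ}
    (r : V) {c : ℕ} (hc : c < k) (h : AWin G k (single r c)) : AWin G k (single r 0) := by
  have h2 := awin_rename (Equiv.swap 0 c) (k := k) ?_ h
  · have : (fun v => (single r c v).map (Equiv.swap 0 c)) = single r 0 := by
      rw [single_eq, single_eq]
      funext v
      by_cases hv : v = r
      · simp [hv, Equiv.swap_apply_right]
      · simp [hv]
    rwa [this] at h2
  · intro d
    by_cases h0 : d = 0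
    · subst h0
      rw [Equiv.swap_apply_left]
      constructor
      · intro _; omega
      · intro _; exact hc
    · by_cases h1 : d = c
      · subst h1
        rw [Equiv.swap_apply_right]
        constructor
        · intro _; exact hc
        · intro _; omega
      · rw [Equiv.swap_apply_of_ne_of_ne h0 h1]

/-- the two certificates refute monotonicity -/
theorem refute {V : Type} [Fintype V] [DecidableEq V] (G : SimpleGraph V) (r : V) (k : ℕ)
    (hk : 0 < k) (hodd : Odd (Fintype.card V))
    (hA : AWin G k (fun v => if v = r then some 0 else none))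
    (hB : ¬ AWin G (k + 1) (fun v => if v = r then some 0 else none)) :
    ∃ (V' : Type) (_ : Fintype V') (_ : DecidableEq V') (H : SimpleGraph V'),
      AWin H k (fun _ => none) ∧ ¬ AWin H (k + 1) (fun _ => none) := by
  rw [← single_eq] at hA hB
  have := glue3 G r k hk hodd hA (fun c hc h => hB (awin_single_zero r hc h))
  exact ⟨GV r, inferInstance, inferInstance, glue G r, this⟩

/-- the negation of Zhu's monotonicity question from two certificates -/
theorem zhu {V : Type} [Fintype V] [DecidableEq V] (G : SimpleGraph V) (r : V) (k : ℕ)
    (hk : 0 < k) (hodd : Odd (Fintype.card V))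
    (hA : AWin G k (fun v => if v = r then some 0 else none))
    (hB : ¬ AWin G (k + 1) (fun v => if v = r then some 0 else none)) :
    ¬ (∀ (V : Type) [Fintype V] [DecidableEq V] (G : SimpleGraph V) (k : ℕ),
      (∃ W : Set (V → Option ℕ), (fun _ => none : V → Option ℕ) ∈ W ∧
        ∀ f ∈ W,
          ((¬ ∃ v c, f v = none ∧ c < k ∧ ∀ w, G.Adj v w → f w ≠ some c) →
              ∀ v, f v ≠ none) ∧
          (Even (Finset.univ.filter (fun v => f v ≠ none)).card →
              (∃ v c, f v = none ∧ c < k ∧ ∀ w, G.Adj v w → f w ≠ some c) →
              ∃ v c, f v = none ∧ c < k ∧ (∀ w, G.Adj v w → f w ≠ some c) ∧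
                Function.update f v (some c) ∈ W) ∧
          (¬ Even (Finset.univ.filter (fun v => f v ≠ none)).card →
              ∀ v c, f v = none → c < k → (∀ w, G.Adj v w → f w ≠ some c) →
                Function.update f v (some c) ∈ W)) →
      (∃ W : Set (V → Option ℕ), (fun _ => none : V → Option ℕ) ∈ W ∧
        ∀ f ∈ W,
          ((¬ ∃ v c, f v = none ∧ c < k + 1 ∧ ∀ w, G.Adj v w → f w ≠ some c) →
              ∀ v, f v ≠ none) ∧
          (Even (Finset.univ.filter (fun v => f v ≠ none)).card →
              (∃ v c, f v = none ∧ c < k + 1 ∧ ∀ w, G.Adj v w → f w ≠ some c) →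
              ∃ v c, f v = none ∧ c < k + 1 ∧ (∀ w, G.Adj v w → f w ≠ some c) ∧
                Function.update f v (some c) ∈ W) ∧
          (¬ Even (Finset.univ.filter (fun v => f v ≠ none)).card →
              ∀ v c, f v = none → c < k + 1 → (∀ w, G.Adj v w → f w ≠ some c) →
                Function.update f v (some c) ∈ W))) := by
  obtain ⟨V', i1, i2, H, hA', hB'⟩ := refute G r k hk hodd hA hB
  intro h
  exact hB' (h V' H k hA')

end Pool.Agent.Lib_helper21.Zhu
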